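import Pool.Agent.H427.AS.Abel
import Pool.Agent.H427.AS.Fin5
import Pool.Agent.H427.AS.Fin6

/-!
# Tate's prediction for almost all surfaces in the projective space which contain a given curve

Let `Q_1, …, Q_r` be integral forms of degree `e` in four variables, with the set `B` of common zeros in the
projective space, and suppose that `B` has `k_p p + O(√p)` points over the field with `p` elements, `k_p` bounded. By
Lang and Weil this is so for all `B` of dimension at most one, if `k_p` is the number of the components of dimension one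
of `B` modulo `p` which are geometrically irreducible (for large `p`); `B` may be empty (`Q_1 = 1`, `k_p = 0`). Let
`d ≥ 1`. We consider the surfaces `F = Q_1 A_1 + … + Q_r A_r = 0` of degree `d + e`, where `A_j` are forms of degree `d`
with integral coefficients of absolute value at most `H`. For `Q_1 = 1` these are all surfaces of degree `d`.

Put `b_p = #(F = 0)(F_p) - p ^ 2 - 1`. For a good prime `p` this is the trace of the Frobenius on `H ^ 2`. According
to the conjecture of Tate `L_2(s)` has a pole of order `rank NS` at `s = 2`. For the general surface above, `NS` is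
generated by the plane section and the components of dimension one of `B` (Noether, Lefschetz, Lopez), i.e. `b_p / p`
should be `1 + k_p` on average.

We prove, for every bounded `w_p` and `δ, ε > 0`, that there is `C` such that for every `H`, for all but at most `ε`
times their number of the tuples `(A_j)` above, the following holds with `X = H` (`X = H ^ (4/5)` if `d = 1`), that is,
for the primes up to the size of the coefficients. One may take `w_p = 1`, or for `w_p` the number of the prime ideals of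
norm `p` of a number field `K`, which gives the prediction of Tate over `K`.

* For all `2 ≤ T ≤ X` the sum of `w_p (b_p / p - 1 - k_p) log p` over `p ≤ T` is at most `C T ^ (1/2 + δ)`.
* For all `s` with `Re s ≥ 3/2 + 2 δ` and `2 ≤ y ≤ z ≤ X` the sum of `w_p (b_p - (1 + k_p) p) log p / p ^ s`
  over `y < p ≤ z` is at most `C (1 + |s|) y ^ (3/2 + δ - Re s)`.

The proof: the mean square of the first sum over the box, with a nonnegative weight whose Fourier transform has small
support, so that for two primes only the pairs of points count for which the coordinates of their images in the linear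
system add up to small fractions; these are counted by the relations between the monomials, which hold for the numerators
of the fractions in the integers; the inequality of Rademacher and Menshov; partial summation.
-/

set_option autoImplicit false
set_option linter.all false

namespace Pool.Agent.Results.MP_1f4fc7_nt.AlmostAllSurfaces

open MvPolynomial

/-- The form `F = ∑ Q_j A_j`, where `A_j = ∑ c(j, m) m`, the sum over the monomials `m` of degree `d` in the variables
`X_0, …, X_3` (the multisets of size `d`). -/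
noncomputable def surface {r d : ℕ} (Q : Fin r → MvPolynomial (Fin 4) ℤ) (c : Fin r × Sym (Fin 4) d → ℤ) :
    MvPolynomial (Fin 4) ℤ :=
  ∑ j, Q j * ∑ m : Sym (Fin 4) d, C (c (j, m)) * ((m : Multiset (Fin 4)).map X).prod

/-- The number of points over the field with `p` elements of the projective scheme given by the forms `S_i`: the number
of the nonzero vectors `v` with `S_i(v) = 0` for all `i`, divided by `p - 1`. -/
noncomputable def points {κ : Type} (S : κ → MvPolynomial (Fin 4) ℤ) (p : ℕ) : ℝ :=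
  (Nat.card {v : Fin 4 → ZMod p // v ≠ 0 ∧ ∀ i, aeval v (S i) = 0} : ℝ) / (p - 1)

/-- `b_p(F) = #(F = 0)(F_p) - p ^ 2 - 1`. -/
noncomputable def trace (F : MvPolynomial (Fin 4) ℤ) (p : ℕ) : ℝ :=
  points (fun _ : Unit => F) p - p ^ 2 - 1

/-- The `Q_j` are forms of degree `e`, the scheme `B` of their common zeros has `k_p p + O(√p)` points over the field
with `p` elements, and `k_p` is bounded. -/
structure IsBase {r : ℕ} (Q : Fin r → MvPolynomial (Fin 4) ℤ) (e : ℕ) (k : ℕ → ℝ) (M : ℝ) : Prop where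
  homogeneous : ∀ j, (Q j).IsHomogeneous e
  count : ∀ p : ℕ, p.Prime → |points Q p - k p * p| ≤ M * Real.sqrt p
  bounded : ∀ p : ℕ, p.Prime → |k p| ≤ M

/-- Tate's prediction with the average rank `1 + k_p`, the weights `w_p` and the error term of the Riemann hypothesis, for
all `T ≤ X` and, for the primes up to `X`, in the half plane `Re s ≥ 3/2 + 2 δ`. -/
def TatePrediction (F : MvPolynomial (Fin 4) ℤ) (k w : ℕ → ℝ) (C δ : ℝ) (X : ℕ) : Prop :=
  (∀ T : ℕ, 2 ≤ T → T ≤ X →
    |∑ p ∈ (Finset.range (T + 1)).filter Nat.Prime, w p * (trace F p / p - (1 + k p)) * Real.log p|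
      ≤ C * (T : ℝ) ^ (1 / 2 + δ)) ∧
  (∀ s : ℂ, 3 / 2 + 2 * δ ≤ s.re → ∀ y z : ℕ, 2 ≤ y → y ≤ z → z ≤ X →
    ‖∑ p ∈ (Finset.Ioc y z).filter Nat.Prime,
        ((w p * (trace F p - (1 + k p) * p) * Real.log p : ℝ) : ℂ) / (p : ℂ) ^ s‖
      ≤ C * (1 + ‖s‖) * (y : ℝ) ^ (3 / 2 + δ - s.re))

/-- The hypothesis for `Q_1 = 1`, when `B` is empty and the surfaces are all surfaces of degree `d`. -/
theorem isBase_one : IsBase (fun _ : Fin 1 => (1 : MvPolynomial (Fin 4) ℤ)) 0 (fun _ => 0) 0 := by
  refine ⟨fun _ => isHomogeneous_one _ _, fun p hp => ?_, fun p hp => by simp⟩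
  haveI : Fact p.Prime := ⟨hp⟩
  have h : IsEmpty {v : Fin 4 → ZMod p // v ≠ 0 ∧ ∀ i : Fin 1, aeval v (1 : MvPolynomial (Fin 4) ℤ) = 0} := by
    refine ⟨fun v => ?_⟩
    have := v.2.2 0
    simp at this
  unfold points
  rw [Nat.card_of_isEmpty]
  simp

/-- For all but at most `ε` times their number of the surfaces with the coefficients in the box the prediction holds. -/
theorem result {r e d : ℕ} (hd : 1 ≤ d) (Q : Fin r → MvPolynomial (Fin 4) ℤ) (k : ℕ → ℝ) (M : ℝ)
    (hQ : IsBase Q e k M) (w : ℕ → ℝ) (W : ℝ) (hw : ∀ p, |w p| ≤ W) (δ ε : ℝ) (hδ : 0 < δ) (hε : 0 < ε) :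
    ∃ C : ℝ, ∀ H X : ℕ, X ≤ H → (d = 1 → X ^ 5 ≤ H ^ 4) →
      (Nat.card {c : Fin r × Sym (Fin 4) d → ℤ // (∀ i, |c i| ≤ H) ∧
          ¬ TatePrediction (surface Q c) k w C δ X} : ℝ)
        ≤ ε * Nat.card {c : Fin r × Sym (Fin 4) d → ℤ // ∀ i, |c i| ≤ H} := by
  classical
  have hk : ∀ p : ℕ, p.Prime → |Pool.Agent.H427.AS.points Q p - k p * p| ≤ M * Real.sqrt p ∧ |k p| ≤ M :=
    fun p hp => ⟨hQ.count p hp, hQ.bounded p hp⟩
  have hW : 0 < W + 1 := by
    have := (abs_nonneg _).trans (hw 0)
    linarith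
  set w' : ℕ → ℝ := fun p => w p / (W + 1) with hw'
  have hw1 : ∀ p, |w' p| ≤ 1 := by
    intro p
    rw [hw', abs_div, abs_of_pos hW, div_le_one hW]
    linarith [hw p]
  have hmain' : ∃ C₀ : ℝ, 0 < C₀ ∧ ∀ H X : ℕ, X ≤ H → (d = 1 → X ^ 5 ≤ H ^ 4) →
      (((Pool.Agent.H427.AS.Box (Fin r × Sym (Fin 4) d) H).filter (fun c => ¬ ∀ T : ℕ, 2 ≤ T → T ≤ X →
        |Pool.Agent.H427.AS.AA (Pool.Agent.H427.AS.surface Q c) k w' T| ≤ C₀ * (T : ℝ) ^ (1 / 2 + δ))).card : ℝ)
        ≤ ε * ((2 * H + 1 : ℕ) : ℝ) ^ Fintype.card (Fin r × Sym (Fin 4) d) := by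
    by_cases hd1 : d = 1
    · obtain ⟨C₀, hC₀, hmain⟩ := Pool.Agent.H427.AS.main5 (d := d) (by omega) Q k M hk w' hw1 δ ε hδ hε
      refine ⟨C₀, hC₀, fun H X _ hX => le_trans ?_ (hmain H)⟩
      have hsub : (Pool.Agent.H427.AS.Box (Fin r × Sym (Fin 4) d) H).filter (fun c => ¬ ∀ T : ℕ, 2 ≤ T → T ≤ X →
          |Pool.Agent.H427.AS.AA (Pool.Agent.H427.AS.surface Q c) k w' T| ≤ C₀ * (T : ℝ) ^ (1 / 2 + δ))
          ⊆ (Pool.Agent.H427.AS.Box (Fin r × Sym (Fin 4) d) H).filter (fun c => ¬ ∀ T : ℕ, 2 ≤ T → T ^ 5 ≤ H ^ 4 →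
          |Pool.Agent.H427.AS.AA (Pool.Agent.H427.AS.surface Q c) k w' T| ≤ C₀ * (T : ℝ) ^ (1 / 2 + δ)) := by
        intro c hc
        rw [Finset.mem_filter] at hc ⊢
        exact ⟨hc.1, fun hall => hc.2 (fun T h1 h2 => hall T h1 ((Nat.pow_le_pow_left h2 5).trans (hX hd1)))⟩
      exact_mod_cast Finset.card_le_card hsub
    · obtain ⟨C₀, hC₀, hmain⟩ := Pool.Agent.H427.AS.main6 (d := d) (by omega) Q k M hk w' hw1 δ ε hδ hε
      refine ⟨C₀, hC₀, fun H X hX _ => le_trans ?_ (hmain H)⟩
      have hsub : (Pool.Agent.H427.AS.Box (Fin r × Sym (Fin 4) d) H).filter (fun c => ¬ ∀ T : ℕ, 2 ≤ T → T ≤ X →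
          |Pool.Agent.H427.AS.AA (Pool.Agent.H427.AS.surface Q c) k w' T| ≤ C₀ * (T : ℝ) ^ (1 / 2 + δ))
          ⊆ (Pool.Agent.H427.AS.Box (Fin r × Sym (Fin 4) d) H).filter (fun c => ¬ ∀ T : ℕ, 2 ≤ T → T ≤ H →
          |Pool.Agent.H427.AS.AA (Pool.Agent.H427.AS.surface Q c) k w' T| ≤ C₀ * (T : ℝ) ^ (1 / 2 + δ)) := by
        intro c hc
        rw [Finset.mem_filter] at hc ⊢
        exact ⟨hc.1, fun hall => hc.2 (fun T h1 h2 => hall T h1 (h2.trans hX))⟩
      exact_mod_cast Finset.card_le_card hsub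
  obtain ⟨C₀, hC₀, hmain⟩ := hmain'
  set C : ℝ := (W + 1) * C₀ with hCdef
  have hC : 0 < C := by rw [hCdef]; positivity
  refine ⟨C * (2 + 1 / δ), fun H X hXH hX1 => ?_⟩
  have hbox : ∀ c : Fin r × Sym (Fin 4) d → ℤ, c ∈ Pool.Agent.H427.AS.Box (Fin r × Sym (Fin 4) d) H ↔ ∀ i, |c i| ≤ H := by
    intro c
    unfold Pool.Agent.H427.AS.Box
    rw [Fintype.mem_piFinset]
    simp only [Finset.mem_Icc, abs_le]
  rw [Nat.subtype_card (Pool.Agent.H427.AS.Box (Fin r × Sym (Fin 4) d) H) hbox,
    Nat.subtype_card ((Pool.Agent.H427.AS.Box (Fin r × Sym (Fin 4) d) H).filter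
      (fun c => ¬ TatePrediction (surface Q c) k w (C * (2 + 1 / δ)) δ X))
      (fun c => by rw [Finset.mem_filter, hbox]), Pool.Agent.H427.AS.card_box]
  refine le_trans ?_ (hmain H X hXH hX1)
  have hC1 : C ≤ C * (2 + 1 / δ) := by
    have : 0 < 1 / δ := by positivity
    nlinarith
  have hsub : (Pool.Agent.H427.AS.Box (Fin r × Sym (Fin 4) d) H).filter
      (fun c => ¬ TatePrediction (surface Q c) k w (C * (2 + 1 / δ)) δ X)
      ⊆ (Pool.Agent.H427.AS.Box (Fin r × Sym (Fin 4) d) H).filter (fun c => ¬ ∀ T : ℕ, 2 ≤ T → T ≤ X →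
        |Pool.Agent.H427.AS.AA (Pool.Agent.H427.AS.surface Q c) k w' T| ≤ C₀ * (T : ℝ) ^ (1 / 2 + δ)) := by
    intro c hc
    rw [Finset.mem_filter] at hc ⊢
    refine ⟨hc.1, fun hall₀ => hc.2 ?_⟩
    have hall : ∀ T : ℕ, 2 ≤ T → T ≤ X →
        |Pool.Agent.H427.AS.AA (Pool.Agent.H427.AS.surface Q c) k w T| ≤ C * (T : ℝ) ^ (1 / 2 + δ) := by
      intro T h1 h2
      have h3 : Pool.Agent.H427.AS.AA (Pool.Agent.H427.AS.surface Q c) k w T
          = (W + 1) * Pool.Agent.H427.AS.AA (Pool.Agent.H427.AS.surface Q c) k w' T := by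
        unfold Pool.Agent.H427.AS.AA
        rw [Finset.mul_sum]
        apply Finset.sum_congr rfl
        intro p _
        rw [hw']
        field_simp
      rw [h3, abs_mul, abs_of_pos hW, hCdef, mul_assoc]
      have := hall₀ T h1 h2
      gcongr
    refine ⟨?_, ?_⟩
    · intro T hT hTH
      have h1 := hall T hT hTH
      have h2 : ∑ p ∈ (Finset.range (T + 1)).filter Nat.Prime, w p * (trace (surface Q c) p / p - (1 + k p)) * Real.log p
          = Pool.Agent.H427.AS.AA (Pool.Agent.H427.AS.surface Q c) k w T := by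
        unfold Pool.Agent.H427.AS.AA
        apply Finset.sum_congr rfl
        intro p _
        show w p * (Pool.Agent.H427.AS.trace (Pool.Agent.H427.AS.surface Q c) p / p - (1 + k p)) * Real.log p = _
        ring
      rw [h2]
      refine h1.trans ?_
      gcongr
    · intro s hs y z hy hyz hzH
      have h3 := Pool.Agent.H427.AS.abel
        (fun n => if n.Prime then w n * ((trace (surface Q c) n / n - 1 - k n) * Real.log n) else 0) C δ hC.le hδ y z hy hyz
        (fun T h1 h2 => by
          have h4 := hall T (hy.trans h1) (h2.trans hzH)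
          have h5 : ∑ n ∈ Finset.Icc 0 T, (if n.Prime then w n * ((trace (surface Q c) n / n - 1 - k n) * Real.log n) else 0)
              = Pool.Agent.H427.AS.AA (Pool.Agent.H427.AS.surface Q c) k w T := by
            unfold Pool.Agent.H427.AS.AA
            rw [Finset.sum_filter]
            apply Finset.sum_congr _ (fun _ _ => rfl)
            ext n
            simp [Nat.lt_succ_iff]
          rw [h5]
          exact h4) s hs
      have h6 : ∑ p ∈ (Finset.Ioc y z).filter Nat.Prime,
            ((w p * (trace (surface Q c) p - (1 + k p) * p) * Real.log p : ℝ) : ℂ) / (p : ℂ) ^ s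
          = ∑ n ∈ Finset.Ioc y z, (n : ℂ) ^ (1 - s) *
            (((if n.Prime then w n * ((trace (surface Q c) n / n - 1 - k n) * Real.log n) else 0 : ℝ)) : ℂ) := by
        rw [Finset.sum_filter]
        apply Finset.sum_congr rfl
        intro n _
        by_cases hn : n.Prime
        · rw [if_pos hn, if_pos hn]
          have hn0 : (n : ℂ) ≠ 0 := by exact_mod_cast hn.ne_zero
          have hn1 : (n : ℝ) ≠ 0 := by exact_mod_cast hn.ne_zero
          rw [Complex.cpow_sub _ _ hn0, Complex.cpow_one]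
          have h7 : w n * (trace (surface Q c) n - (1 + k n) * n) * Real.log n
              = n * (w n * ((trace (surface Q c) n / n - 1 - k n) * Real.log n)) := by
            field_simp
            ring
          rw [h7]
          push_cast
          ring
        · rw [if_neg hn, if_neg hn]
          simp
      rw [h6]
      refine h3.trans ?_
      have h8 : ‖1 - s‖ ≤ 1 + ‖s‖ := (norm_sub_le _ _).trans (by simp)
      have h9 : 2 + ‖1 - s‖ / δ ≤ (2 + 1 / δ) * (1 + ‖s‖) := by
        have h10 : ‖1 - s‖ / δ ≤ (1 + ‖s‖) / δ := by gcongr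
        have h11 : (2 : ℝ) ≤ 2 * (1 + ‖s‖) := by linarith [norm_nonneg s]
        calc 2 + ‖1 - s‖ / δ ≤ 2 * (1 + ‖s‖) + (1 + ‖s‖) / δ := by linarith
          _ = _ := by ring
      calc C * (2 + ‖1 - s‖ / δ) * (y : ℝ) ^ (3 / 2 + δ - s.re)
          ≤ C * ((2 + 1 / δ) * (1 + ‖s‖)) * (y : ℝ) ^ (3 / 2 + δ - s.re) := by gcongr
        _ = _ := by ring
  exact_mod_cast Finset.card_le_card hsub

end Pool.Agent.Results.MP_1f4fc7_nt.AlmostAllSurfaces
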