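import Pool.Agent.H439.LL.Dev

/-!
# Large values and moments of the twists of `L(H^i(X), s)` near the edge `Re s = 1 + i/2`

Let `X` be a smooth projective variety over a number field `K` of degree `n`, `i ≥ 0`, and
`P_v(T) = det(1 - Frob_v T | H^i(X)^{I_v})`, read in the complex numbers, a polynomial of degree at most
`N = dim H^i(X)`.  For `i = 2` the Euler product of the `P_v(q_v^{-s})⁻¹` is `L₂(s, X)`, and Tate's
conjecture is about its pole at `s = 2`.  For a Dirichlet character `χ` modulo `q` the Euler product of
the `P_v(χ(q_v) q_v^{-s})⁻¹` is the twist `L(X ⊗ χ, s)`; the product of the twists by all characters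
modulo `q` belongs to `X` over the field of `q`-th roots of unity.  Tate's conjecture, applied to `X`
over abelian extensions of `K`, predicts that all but finitely many of the twists have neither a zero nor
a pole at `s = 2`, and that none of them has one at the other points `2 + it` of the edge.  No analytic
continuation to the edge is known.

How large or how small can the twists be at a tiny distance `ε` from the edge, and how often?  The trivial
bound is `|log |L|| ≤ n N (log(1/ε) + O(1))`.  Let `log L / (n N)` be measured by `log τ`.  The theorem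
says that at all distances `ε ≥ exp(-q^κ)`, `κ < 1/8`, from the edge, and uniformly for all varieties over
all number fields, the proportion of the characters `χ` modulo `q` with `|L| > (C' τ)^{n N}` or
`|L| < (C' τ)^{-n N}` decays doubly exponentially, like `exp(-e^τ / 4)`, in the full range
`log 3 ≤ τ ≤ log log q - log log log q - O(1)`.  This is the decay of the random Euler product
with independent values on the unit circle (for `ζ`, where `X` is a point, the actual order of magnitude
is of this kind), and what one expects from Tate's conjecture and the Riemann hypothesis.  Consequently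
all moments of `L` and of `1 / L` over the characters modulo `q`, outside a set of at most
`φ(q) exp(-c log q / log log q)` characters, are bounded by constants which depend on `n N` only, although
`ε` can be as small as `exp(-q^κ)`.
-/

set_option autoImplicit false

namespace Pool.Agent.Results.MP_1f4fc7_nt.LargeDeviations

open NumberField IsDedekindDomain Polynomial

section
variable {K : Type} [Field K] [NumberField K]

/-- The twisted Euler product `∏_v P_v(χ(q_v) q_v^{-s})⁻¹` over the primes `v` of `K`, where `q_v` is the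
norm of `v`. -/
noncomputable def L (P : HeightOneSpectrum (𝓞 K) → ℂ[X]) {q : ℕ} (χ : DirichletCharacter ℂ q)
    (s : ℂ) : ℂ :=
  ∏' v : HeightOneSpectrum (𝓞 K), ((P v).eval
    (χ (Ideal.absNorm v.asIdeal) * ((Ideal.absNorm v.asIdeal : ℕ) : ℂ) ^ (-s)))⁻¹

/-- The polynomials `P_v` have constant term `1`, degree at most `N`, and the inverses of their zeros
have absolute value at most `q_v^{i/2}`.  For `P_v = det(1 - Frob_v T | H^i(X)^{I_v})` and
`N = dim H^i(X)` this is the theorem of Deligne at the primes of good reduction; at the other primes it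
is known for `i ≤ 2`, and in general one may put `P_v = 1` there. -/
structure HasWeights (P : HeightOneSpectrum (𝓞 K) → ℂ[X]) (N i : ℕ) : Prop where
  coeff_zero : ∀ v, (P v).coeff 0 = 1
  natDegree_le : ∀ v, (P v).natDegree ≤ N
  le_norm : ∀ v, ∀ z : ℂ, (P v).IsRoot z →
    ((Ideal.absNorm v.asIdeal : ℕ) : ℝ) ^ (-((i : ℝ) / 2)) ≤ ‖z‖

end

/-- **Large deviations and moments of the twists near the edge.**  There are an absolute constant `C` and
an absolute function `D` with the following property.  Let `A ≥ 1` and `0 < κ < 1/8`.  There are `c > 0`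
and `Q₀` such that for all number fields `K` of degree `n`, all Euler factors `P_v` over `K` of degree at
most `N` and weight at most `i`, all moduli `q ≥ Q₀`, all `|t| ≤ q^A` and all `exp(-q^κ) ≤ ε ≤ 1/2`, with
`s = 1 + i/2 + ε + it`:

* for all real `y` between `3` and `c log q / log log q` the number of the characters `χ` modulo `q` with
  `|log |L(P ⊗ χ, s)|| > n N (log log y + C)` is at most `5 φ(q) exp(-y/4)`;
* there is a set `E` of at most `φ(q) exp(-c log q / log log q)` characters modulo `q` such that for all
  `r ≥ 0` the sum of `exp(r |log |L(P ⊗ χ, s)||)` over the characters modulo `q` which are not in `E` is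
  at most `D(r n N) φ(q)`. -/
theorem result : ∃ (C : ℝ) (D : ℝ → ℝ), ∀ A κ : ℝ, 1 ≤ A → 0 < κ → κ < 1 / 8 →
    ∃ (c : ℝ) (Q₀ : ℕ), 0 < c ∧ ∀ (K : Type) [Field K] [NumberField K] (N i : ℕ)
      (P : HeightOneSpectrum (𝓞 K) → ℂ[X]), HasWeights P N i → ∀ (q : ℕ) [NeZero q], Q₀ ≤ q →
      ∀ t ε : ℝ, |t| ≤ (q : ℝ) ^ A → Real.exp (-(q : ℝ) ^ κ) ≤ ε → ε ≤ 1 / 2 →
        (∀ y : ℝ, 3 ≤ y → y ≤ c * (Real.log q / Real.log (Real.log q)) →
          (({χ : DirichletCharacter ℂ q |
            (Module.finrank ℚ K : ℝ) * N * (Real.log (Real.log y) + C) <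
              |Real.log ‖L P χ (1 + (i : ℂ) / 2 + ε + t * Complex.I)‖|}.ncard : ℕ) : ℝ) ≤
            5 * (q.totient * Real.exp (-(y / 4)))) ∧
        ∃ E : Finset (DirichletCharacter ℂ q),
          (E.card : ℝ) ≤ q.totient * Real.exp (-(c * (Real.log q / Real.log (Real.log q)))) ∧
          ∀ r : ℝ, 0 ≤ r → ∑ χ ∈ Eᶜ,
            Real.exp (r * |Real.log ‖L P χ (1 + (i : ℂ) / 2 + ε + t * Complex.I)‖|) ≤
              D (r * ((Module.finrank ℚ K : ℝ) * N)) * q.totient := by
  open Pool.Agent.H439.LL in
  classical
  obtain ⟨C, -, hC⟩ := exists_CD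
  refine ⟨C, DD C, fun A κ hA hκ hκ8 => ?_⟩
  obtain ⟨c, Q₀, hc, h⟩ := dev_all hC hA hκ hκ8
  refine ⟨c, Q₀, hc, fun K _ _ N i P hP q _ hq t ε ht hε0 hε1 => ?_⟩
  have hW : HW P N (i : ℝ) := ⟨hP.coeff_zero, hP.natDegree_le, hP.le_norm⟩
  obtain ⟨h1, E, hE, h2⟩ := h K N i P hW q hq t ht ε hε0 hε1
  have key : ∀ χ : DirichletCharacter ℂ q, L P χ (1 + (i : ℂ) / 2 + ε + t * Complex.I) =
      LG P (gch χ t) (1 + ((i : ℝ) : ℂ) / 2 + (ε : ℂ)) := by
    intro χ
    rw [LG_gch]
    have e : (1 + (i : ℂ) / 2 + (ε : ℂ)) = 1 + ((i : ℝ) : ℂ) / 2 + (ε : ℂ) := by push_cast; rfl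
    rw [e]
    rfl
  simp_rw [key]
  refine ⟨fun y hy3 hyc => ?_, E, hE, fun r hr => ?_⟩
  · have h3 := h1 y hy3 hyc (Finset.univ.filter fun χ =>
      (Module.finrank ℚ K : ℝ) * N * (Real.log (Real.log y) + C) <
        |Real.log ‖LG P (gch χ t) (1 + ((i : ℝ) : ℂ) / 2 + (ε : ℂ))‖|)
      (fun χ hχ => (Finset.mem_filter.1 hχ).2)
    refine le_trans (le_of_eq ?_) h3
    rw [← Set.ncard_coe_finset]
    simp
  · refine le_trans (le_of_eq ?_) (h2 r hr)
    apply Finset.sum_congr _ fun _ _ => rfl
    ext χ
    simp

end Pool.Agent.Results.MP_1f4fc7_nt.LargeDeviations
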