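import Pool.Agent.H439.SP.FieldTail

/-!
# Almost all twists of `L(H^i(X), s)` are short Euler products near the edge `Re s = 1 + i/2`

Let `X` be a smooth projective variety over a number field `K` of degree `n`, `i ≥ 0`, and
`P_v(T) = det(1 - Frob_v T | H^i(X)^{I_v})`, read in the complex numbers, a polynomial of degree at most
`N = dim H^i(X)`.  For `i = 2` the Euler product of the `P_v(q_v^{-s})⁻¹` is `L₂(s, X)`, and Tate's
conjecture is about its pole at `s = 2`.  For a Dirichlet character `χ` the Euler product of the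
`P_v(χ(q_v) q_v^{-s})⁻¹` is the twist `L(X ⊗ χ, s)`.  Applied to `X` over abelian extensions of `K` the
conjecture predicts that all but finitely many of the twists have neither a zero nor a pole at `s = 2`,
and that none of them has one at the other points `2 + it` of the edge.  No analytic continuation beyond
the edge is known; the trivial bound is `|log |L(X ⊗ χ, 2 + ε + it)|| ≤ n N log (1/ε) + O(n N)`.

If the twists had analytic continuations with the usual functional equations, then the Riemann hypothesis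
for them would imply that `L(X ⊗ χ, 2 + ε + it)` is, up to a factor `1 + o(1)`, the Euler product over the
primes with `q_v ≤ (log R)^B`, `R` a bound for the conductor of `χ` and for `|t|`, so that
`(c log log R)^{-nN} ≤ |L| ≤ (C log log R)^{nN}`, for all `ε > 0`.  We prove this without any hypothesis
for all `ε ≥ exp (-R^{δ/8})` and all `|t| ≤ R`, for all primitive characters `χ` of conductor at most `R`
outside a set of at most `R^δ` elements (there are about `R²` of them).  So near the edge, up to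
exponentially small distances, almost all twists of every variety behave as Tate's conjecture predicts, and
there is no trace of a zero or of a pole.
-/

set_option autoImplicit false

namespace Pool.Agent.Results.MP_1f4fc7_nt.ShortEulerProducts

open NumberField IsDedekindDomain Polynomial

section
variable {K : Type} [Field K] [NumberField K]

/-- The twisted Euler product `∏_v P_v(χ(q_v) q_v^{-s})⁻¹` over the primes `v` of `K`, where `q_v` is the
norm of `v` and `χ` a Dirichlet character modulo `q`. -/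
noncomputable def L (P : HeightOneSpectrum (𝓞 K) → ℂ[X]) {q : ℕ} (χ : DirichletCharacter ℂ q)
    (s : ℂ) : ℂ :=
  ∏' v : HeightOneSpectrum (𝓞 K), ((P v).eval
    (χ (Ideal.absNorm v.asIdeal : ℕ) * ((Ideal.absNorm v.asIdeal : ℕ) : ℂ) ^ (-s)))⁻¹

open Classical in
/-- The short Euler product: the part of the Euler product over the primes `v` with `q_v ≤ y`. -/
noncomputable def LShort (P : HeightOneSpectrum (𝓞 K) → ℂ[X]) {q : ℕ} (χ : DirichletCharacter ℂ q)
    (s : ℂ) (y : ℝ) : ℂ :=
  ∏' v : HeightOneSpectrum (𝓞 K), if ((Ideal.absNorm v.asIdeal : ℕ) : ℝ) ≤ y then ((P v).eval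
    (χ (Ideal.absNorm v.asIdeal : ℕ) * ((Ideal.absNorm v.asIdeal : ℕ) : ℂ) ^ (-s)))⁻¹ else 1

/-- The polynomials `P_v` have constant term `1`, degree at most `N`, and the inverses of their zeros
have absolute value at most `q_v^{i/2}`.  For `P_v = det(1 - Frob_v T | H^i(X)^{I_v})` and
`N = dim H^i(X)` this is the theorem of Deligne at the primes of good reduction; at the other primes it
is known for `i ≤ 2`, and in general one may put `P_v = 1` there. -/
structure HasWeights (P : HeightOneSpectrum (𝓞 K) → ℂ[X]) (N i : ℕ) : Prop where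
  coeff_zero : ∀ v, (P v).coeff 0 = 1
  natDegree_le : ∀ v, (P v).natDegree ≤ N
  le_norm : ∀ v, ∀ z : ℂ, (P v).IsRoot z →
    ((Ideal.absNorm v.asIdeal : ℕ) : ℝ) ^ (-((i : ℝ) / 2)) ≤ ‖z‖

end

/-- The Dirichlet characters `χ` modulo `q` and `ξ` modulo `r` agree on the integers coprime to `q r`; in
other words they are induced by the same primitive character. -/
def SamePrimitive {q r : ℕ} (χ : DirichletCharacter ℂ q) (ξ : DirichletCharacter ℂ r) : Prop :=
  ∀ n : ℕ, n.Coprime (q * r) → χ n = ξ n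

/-- A finite family of Dirichlet characters `χ_j` modulo `q_j`, `1 ≤ q_j ≤ R`, and of sets `I_j` of
heights in `[-R, R]`, such that the sets of two members whose characters are induced by the same primitive
character have distance at least `1`.  For example all primitive characters modulo all `q ≤ R`, with
`I_j = [-R, R]` for all `j`; or one character and every second one of the intervals `[m, m + 1]`. -/
structure IsFamily {J : ℕ} (q : Fin J → ℕ) (χ : ∀ j, DirichletCharacter ℂ (q j)) (I : Fin J → Set ℝ)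
    (R : ℝ) : Prop where
  pos : ∀ j, 0 < q j
  le : ∀ j, (q j : ℝ) ≤ R
  abs_le : ∀ j, ∀ t ∈ I j, |t| ≤ R
  sep : ∀ j k, j ≠ k → SamePrimitive (χ j) (χ k) → ∀ t ∈ I j, ∀ u ∈ I k, 1 ≤ |t - u|

/-- **Almost all twists are short Euler products near the edge.**  There is an absolute constant `C` with
the following property.  Let `0 < δ ≤ 1` and `R ≥ R₀(δ, D)`.  For all number fields `K` of degree `n`, all
Euler factors `P_v` over `K` of degree at most `N` and weight at most `i`, `n N ≤ D`, and all families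
`(χ_j, I_j)` of characters and sets of heights bounded by `R`, for all but at most `R^δ` members of the
family the following is true for all `t ∈ I_j` and all `exp (-R^{δ/8}) ≤ ε ≤ 1/2`:

* `L(P ⊗ χ_j, 1 + i/2 + ε + it)` is the Euler product over the primes with `q_v ≤ (log R)^{240/δ}`,
  up to a factor `1 + O^*(1 / log R)`;
* `|log |L(P ⊗ χ_j, 1 + i/2 + ε + it)|| ≤ n N log (C log log R / δ)`. -/
theorem result : ∃ C : ℝ, 0 < C ∧ ∀ δ : ℝ, 0 < δ → δ ≤ 1 → ∀ D : ℕ, ∃ R₀ : ℝ, ∀ R : ℝ, R₀ ≤ R →
    ∀ (K : Type) [Field K] [NumberField K] (N i : ℕ) (P : HeightOneSpectrum (𝓞 K) → ℂ[X]),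
      HasWeights P N i → Module.finrank ℚ K * N ≤ D →
      ∀ (J : ℕ) (q : Fin J → ℕ) (χ : ∀ j, DirichletCharacter ℂ (q j)) (I : Fin J → Set ℝ),
        IsFamily q χ I R →
        ∃ E : Finset (Fin J), (E.card : ℝ) ≤ R ^ δ ∧ ∀ j ∉ E, ∀ t ∈ I j, ∀ ε : ℝ,
          Real.exp (-R ^ (δ / 8)) ≤ ε → ε ≤ 1 / 2 →
          ‖L P (χ j) (1 + (i : ℂ) / 2 + ε + t * Complex.I) /
            LShort P (χ j) (1 + (i : ℂ) / 2 + ε + t * Complex.I) (Real.log R ^ (240 / δ)) - 1‖ ≤
              1 / Real.log R ∧
          |Real.log ‖L P (χ j) (1 + (i : ℂ) / 2 + ε + t * Complex.I)‖| ≤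
            Module.finrank ℚ K * N * Real.log (C * Real.log (Real.log R) / δ) := by
  open Pool.Agent.H439.LS Pool.Agent.H439.SP Filter in
  classical
  have hc0 := c₀_nonneg
  have hc1 := c₁_nonneg
  obtain ⟨C₂, hC₂, hmert⟩ := sum_inv_le
  refine ⟨240 * Real.exp (C₂ + c₀ + 1), by positivity, ?_⟩
  intro δ hδ hδ1 D
  obtain ⟨ℓ₀, hℓ₀⟩ := eventually_atTop.1 (short_PS hδ hδ1 (M := D + 1) (by positivity))
  refine ⟨Real.exp (max ℓ₀ (max 16 (4 * ((D + 1) * c₁)))), ?_⟩
  intro R hR K _ _ N i P hP hD J q χ I hfam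
  have hR0 : 0 < R := lt_of_lt_of_le (Real.exp_pos _) hR
  set ℓ : ℝ := Real.log R with hℓ
  have hℓR : Real.exp ℓ = R := Real.exp_log hR0
  have hℓ1 : max ℓ₀ (max 16 (4 * ((D + 1) * c₁))) ≤ ℓ := by
    rw [hℓ, Real.le_log_iff_exp_le hR0]
    exact hR
  have hℓa : ℓ₀ ≤ ℓ := (le_max_left _ _).trans hℓ1
  have hℓb : 16 ≤ ℓ := ((le_max_left _ _).trans (le_max_right _ _)).trans hℓ1
  have hℓc : 4 * ((D + 1) * c₁) ≤ ℓ := ((le_max_right _ _).trans (le_max_right _ _)).trans hℓ1
  have hℓpos : 0 < ℓ := by linarith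
  obtain ⟨hll, hl2⟩ := loglog_ge (R := ℓ) hℓb
  have hexpδ : ∀ x : ℝ, R ^ x = Real.exp (x * ℓ) := by
    intro x
    rw [Real.rpow_def_of_pos hR0, mul_comm]
  set M : ℝ := (Module.finrank ℚ K : ℝ) * N with hM
  have hM0 : 0 ≤ M := by positivity
  have hMD : M ≤ D + 1 := by
    have : ((Module.finrank ℚ K * N : ℕ) : ℝ) ≤ D := by exact_mod_cast hD
    push_cast at this
    linarith
  set y : ℝ := ℓ ^ (240 / δ) with hy
  have hexp : 240 ≤ 240 / δ := by
    rw [le_div_iff₀ hδ]; nlinarith
  have hy3 : 3 ≤ y := by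
    have h1 : ℓ ^ (1 : ℝ) ≤ ℓ ^ (240 / δ) :=
      Real.rpow_le_rpow_of_exponent_le (by linarith) (by linarith)
    rw [Real.rpow_one] at h1
    linarith
  have hloglogy : Real.log (Real.log y) = Real.log (240 / δ) + Real.log (Real.log ℓ) := by
    rw [hy, Real.log_rpow hℓpos, Real.log_mul (by positivity) (by linarith)]
  obtain ⟨a, ha, hay, hΛ⟩ := hasProd_short (K := K) (N := N) (i : ℝ) P hP.coeff_zero hP.natDegree_le
    hP.le_norm (by linarith : 1 ≤ y)
  -- the criterion
  have hyq : M * c₁ * y ^ (-(1 / 4 : ℝ)) ≤ 1 / (4 * ℓ) := by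
    have h1 : y ^ (-(1 / 4 : ℝ)) ≤ ℓ ^ (-2 : ℝ) := by
      rw [hy, ← Real.rpow_mul hℓpos.le]
      apply Real.rpow_le_rpow_of_exponent_le (by linarith)
      linarith
    have h2 : ℓ ^ (-2 : ℝ) = 1 / (ℓ * ℓ) := by
      rw [Real.rpow_neg hℓpos.le, one_div, show (2 : ℝ) = ((2 : ℕ) : ℝ) by norm_num,
        Real.rpow_natCast, sq]
    have h3 : M * c₁ ≤ ℓ / 4 := by
      have := mul_le_mul_of_nonneg_right hMD hc1
      linarith
    calc M * c₁ * y ^ (-(1 / 4 : ℝ)) ≤ ℓ / 4 * (1 / (ℓ * ℓ)) := by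
          rw [← h2]
          exact mul_le_mul h3 h1 (by positivity) (by positivity)
      _ = 1 / (4 * ℓ) := by field_simp
  have hcrit : ∀ j, ∀ t ε : ℝ, 0 < ε →
      ‖PS a (χ j) (1 + (ε : ℂ) + (t : ℂ) * Complex.I)‖ < 1 / (4 * ℓ) →
      ‖L P (χ j) (1 + (i : ℂ) / 2 + ε + t * Complex.I) /
            LShort P (χ j) (1 + (i : ℂ) / 2 + ε + t * Complex.I) y - 1‖ ≤ 1 / ℓ ∧
          |Real.log ‖L P (χ j) (1 + (i : ℂ) / 2 + ε + t * Complex.I)‖| ≤
            M * Real.log (240 * Real.exp (C₂ + c₀ + 1) * Real.log ℓ / δ) := by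
    intro j t ε hε hsmall
    obtain ⟨Λ, Λ', h1, h2, h3, h4⟩ := hΛ (q j) (χ j) (1 + (i : ℂ) / 2 + ε + t * Complex.I) (by
      simp
      linarith)
    have e : (1 + (i : ℂ) / 2 + ε + t * Complex.I) - (((i : ℝ) / 2 : ℝ) : ℂ) =
        1 + (ε : ℂ) + (t : ℂ) * Complex.I := by
      push_cast
      ring
    rw [e] at h3
    have hL : L P (χ j) (1 + (i : ℂ) / 2 + ε + t * Complex.I) = Complex.exp (Λ + Λ') := h1.tprod_eq
    have hLS : LShort P (χ j) (1 + (i : ℂ) / 2 + ε + t * Complex.I) y = Complex.exp Λ' := h2.tprod_eq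
    set S := PS a (χ j) (1 + (ε : ℂ) + (t : ℂ) * Complex.I) with hS
    have h5 : ‖Λ‖ ≤ ‖Λ - S‖ + ‖S‖ := by
      have := norm_add_le (Λ - S) S
      rwa [sub_add_cancel] at this
    have h6 : ‖Λ‖ ≤ 1 / (2 * ℓ) := by
      have h7 : 1 / (2 * ℓ) = 1 / (4 * ℓ) + 1 / (4 * ℓ) := by field_simp; norm_num
      rw [h7]
      linarith [h3.trans hyq]
    have h62 : 1 / (2 * ℓ) ≤ 1 := by
      rw [div_le_one (by positivity)]
      linarith
    have h6M : ‖Λ‖ ≤ M := by
      by_cases hz : Module.finrank ℚ K * N = 0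
      · have hMz : M = 0 := by
          rw [hM]
          exact_mod_cast hz
        have hSz : S = 0 := by
          rw [hS]
          unfold Pool.Agent.H439.LS.PS
          have : ∀ p : Nat.Primes, a p * (χ j (p : ℕ) *
              ((p : ℕ) : ℂ) ^ (-(1 + (ε : ℂ) + (t : ℂ) * Complex.I))) = 0 := by
            intro p
            have h8 := ha p p.2
            rw [← hM, hMz] at h8
            rw [norm_le_zero_iff.1 h8, zero_mul]
          rw [tsum_congr this, tsum_zero]
        rw [← hM, hMz, zero_mul, zero_mul, hSz, sub_zero] at h3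
        rw [hMz]
        exact h3
      · have h8 : (1 : ℝ) ≤ M := by
          rw [hM]
          have : 1 ≤ Module.finrank ℚ K * N := Nat.one_le_iff_ne_zero.2 hz
          exact_mod_cast this
        linarith
    constructor
    · rw [hL, hLS, ← Complex.exp_sub, add_sub_cancel_right]
      refine (Complex.norm_exp_sub_one_le (h6.trans h62)).trans ?_
      have : 2 * (1 / (2 * ℓ)) = 1 / ℓ := by field_simp
      linarith
    · rw [hL, Complex.norm_exp, Real.log_exp]
      refine (Complex.abs_re_le_norm _).trans ((norm_add_le _ _).trans ?_)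
      have h9 := hmert y hy3
      have h10 : Real.log (240 * Real.exp (C₂ + c₀ + 1) * Real.log ℓ / δ) =
          Real.log (240 / δ) + Real.log (Real.log ℓ) + C₂ + c₀ + 1 := by
        rw [show 240 * Real.exp (C₂ + c₀ + 1) * Real.log ℓ / δ =
          (240 / δ) * Real.log ℓ * Real.exp (C₂ + c₀ + 1) by ring,
          Real.log_mul (by positivity) (Real.exp_ne_zero _), Real.log_exp,
          Real.log_mul (by positivity) (by linarith)]
        ring
      rw [h10]
      have h11 : ‖Λ'‖ ≤ M * (Real.log (240 / δ) + Real.log (Real.log ℓ) + C₂ + c₀) := by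
        refine h4.trans ?_
        apply mul_le_mul_of_nonneg_left _ hM0
        rw [hloglogy] at h9
        linarith
      have h12 : M * (Real.log (240 / δ) + Real.log (Real.log ℓ) + C₂ + c₀ + 1) =
          M * (Real.log (240 / δ) + Real.log (Real.log ℓ) + C₂ + c₀) + M := by ring
      rw [h12]
      linarith
  -- the exceptional set
  set bad : Fin J → Prop := fun j => ∃ t ∈ I j, ∃ ε : ℝ, Real.exp (-R ^ (δ / 8)) ≤ ε ∧ ε ≤ 1 / 2 ∧
    1 / (4 * ℓ) ≤ ‖PS a (χ j) (1 + (ε : ℂ) + (t : ℂ) * Complex.I)‖ with hbad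
  set E : Finset (Fin J) := Finset.univ.filter bad with hE
  refine ⟨E, ?_, ?_⟩
  · have hmem : ∀ k : Fin E.card, bad (E.orderEmbOfFin rfl k) := fun k =>
      (Finset.mem_filter.1 (E.orderEmbOfFin_mem rfl k)).2
    choose t ht ε hε1 hε2 hPS using hmem
    have hinj : Function.Injective (fun k : Fin E.card => E.orderEmbOfFin rfl k) :=
      (E.orderEmbOfFin rfl).injective
    have hsp : Spaced (fun k : Fin E.card => q (E.orderEmbOfFin rfl k))
        (fun k => χ (E.orderEmbOfFin rfl k)) t :=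
      ⟨fun k => hfam.pos _, fun k l hkl hA => hfam.sep _ _ (fun e => hkl (hinj e)) hA _ (ht k) _ (ht l)⟩
    have h1 := hℓ₀ ℓ hℓa E.card _ _ t hsp (fun k => by rw [hℓR]; exact hfam.le _)
      (fun k => by rw [hℓR]; exact hfam.abs_le _ _ (ht k)) ε
      (fun k => by
        have h2 := hε1 k
        rw [hexpδ, show δ / 8 * ℓ = δ * ℓ / 8 by ring] at h2
        exact h2) hε2 a
      (fun p hp => (ha p hp).trans hMD) hay hPS
    rw [hexpδ]
    exact h1
  · intro j hj t ht ε hε1 hε2
    have h1 : ‖PS a (χ j) (1 + (ε : ℂ) + (t : ℂ) * Complex.I)‖ < 1 / (4 * ℓ) := by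
      by_contra hcon
      rw [not_lt] at hcon
      exact hj (Finset.mem_filter.2 ⟨Finset.mem_univ _, t, ht, ε, hε1, hε2, hcon⟩)
    exact hcrit j t ε (lt_of_lt_of_le (Real.exp_pos _) hε1) h1

end Pool.Agent.Results.MP_1f4fc7_nt.ShortEulerProducts
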