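import Pool.Agent.H500.ME.Mean9

set_option autoImplicit false
set_option linter.unusedSectionVars false

/-!
# The pole at the edge of the `L`-function of a system with solvable residual images

Let `K` and `E` be number fields, `P v` a polynomial over the ring of integers of `E` for every place
`v` of `K`, and `N ≥ 2`.  Suppose that the roots of `P v` in `ℂ` have absolute value `(N v)^(w/2)` for the
places `v ∤ N` (for ONE embedding `τ` of `E` in `ℂ`), and that for a set of primes `λ` of `E` of positive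
upper density the polynomials `P v` modulo `λ` are the characteristic polynomials of the geometric
Frobenius elements for a residual representation of dimension `n` of the absolute Galois group of `K`
with solvable image.  (Example: `w = 2` and `P v` the characteristic polynomial of the geometric
Frobenius element on `H^2` of a smooth projective variety over `K` with good reduction outside `N`, if
the image of Galois on the reduction modulo `l` of `H^2` is solvable for a set of primes `l` of positive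
upper density.)

* Then `L(s)`, the product of the factors `1 / P_v^rev((N v)^(-s))`, has a pole of order exactly `r` at the
  edge `s = w/2 + 1` of absolute convergence, where `r` is for ALL `ℓ` and ALL embeddings of `E` in
  `PadicAlgCl ℓ` the dimension of the space of the Galois invariants of `V(w/2)`, `V` the attached
  `ℓ-adic` representation (which exists), and `r = 0` if `w` is odd.
* The same holds for the `L`-function of every subrepresentation `W` of `V^(⊗ a) ⊗ (V*)^(⊗ b)`, at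
  `s = w(a-b)/2 + 1`.

The theorem is a short deduction from the theorems `edge` and `edge_W` of `Pool.Agent.H500.ME` (helper500
and the authors of the project ME).
-/

namespace Pool.Agent.Results.MP_1f4fc7_nt.SolvableResidualImages

open NumberField IsDedekindDomain Filter Topology Polynomial
open Pool.Agent.W401.Cheb (GK IsFrob IsInert dens)
open Pool.Agent.H500.ME (SolvableAt Att IsCyc tens Eig)

/-- the Euler product `∏ 1 / B_v((N v)^(-s))` at the real number `s` -/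
noncomputable def L {K : Type} [Field K] [NumberField K] (B : HeightOneSpectrum (𝓞 K) → ℂ[X])
    (s : ℝ) : ℂ :=
  ∏' v : HeightOneSpectrum (𝓞 K), ((B v).eval (((Ideal.absNorm v.asIdeal : ℝ) ^ (-s) : ℝ) : ℂ))⁻¹

/-- `L B` has a pole of order `r` at `s₀`: the function `(s - s₀)^r * L B s` has a nonzero limit for `s`
tending to `s₀` from the right, and every function which is meromorphic at `s₀` and agrees with `L B` on
the real numbers to the right of `s₀` has a pole of order exactly `r` at `s₀`. -/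
def HasPole {K : Type} [Field K] [NumberField K] (B : HeightOneSpectrum (𝓞 K) → ℂ[X]) (s₀ : ℝ)
    (r : ℕ) : Prop :=
  (∃ c : ℂ, c ≠ 0 ∧ Tendsto (fun s : ℝ => ((s - s₀ : ℝ) : ℂ) ^ r * L B s) (𝓝[>] s₀) (𝓝 c)) ∧
  ∀ g : ℂ → ℂ, MeromorphicAt g s₀ → (∀ᶠ s : ℝ in 𝓝[>] s₀, g s = L B s) →
    meromorphicOrderAt g s₀ = -(r : ℤ)

/-- a function with a nonzero limit along the real ray has order zero -/
theorem order_zero {F : ℂ → ℂ} {s₀ : ℝ} {c : ℂ} (hc : c ≠ 0)
    (h : Tendsto (fun s : ℝ => F s) (𝓝[>] s₀) (𝓝 c)) : meromorphicOrderAt F (s₀ : ℂ) = 0 := by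
  have hray : Tendsto (fun s : ℝ => (s : ℂ)) (𝓝[>] s₀) (𝓝[≠] (s₀ : ℂ)) := by
    rw [tendsto_nhdsWithin_iff]
    refine ⟨(Complex.continuous_ofReal.tendsto s₀).mono_left nhdsWithin_le_nhds, ?_⟩
    filter_upwards [self_mem_nhdsWithin] with s hs
    intro h1
    have h2 : s = s₀ := Complex.ofReal_injective (Set.mem_singleton_iff.1 h1)
    exact (ne_of_gt (Set.mem_Ioi.1 hs)) h2
  rcases lt_trichotomy (meromorphicOrderAt F (s₀ : ℂ)) 0 with h1 | h1 | h1
  · exfalso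
    have h2 := (tendsto_cobounded_of_meromorphicOrderAt_neg h1).comp hray
    have h3 : Tendsto (fun s : ℝ => ‖F s‖) (𝓝[>] s₀) atTop := tendsto_norm_cobounded_atTop.comp h2
    exact not_tendsto_nhds_of_tendsto_atTop h3 _ h.norm
  · exact h1
  · exfalso
    have h2 := (tendsto_zero_of_meromorphicOrderAt_pos h1).comp hray
    exact hc (tendsto_nhds_unique h h2)

theorem hasPole_of {K : Type} [Field K] [NumberField K] {B : HeightOneSpectrum (𝓞 K) → ℂ[X]}
    {s₀ : ℝ} {r : ℕ} {c : ℂ} (hc : c ≠ 0)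
    (h : Tendsto (fun ε : ℝ => (ε : ℂ) ^ r * ∏' v : HeightOneSpectrum (𝓞 K),
      ((B v).eval (((Ideal.absNorm v.asIdeal : ℝ) ^ (-(s₀ + ε)) : ℝ) : ℂ))⁻¹)
      (𝓝[>] 0) (𝓝 c)) : HasPole B s₀ r := by
  have h1 : Tendsto (fun s : ℝ => s - s₀) (𝓝[>] s₀) (𝓝[>] 0) := by
    rw [tendsto_nhdsWithin_iff]
    constructor
    · have h2 : Tendsto (fun s : ℝ => s - s₀) (𝓝 s₀) (𝓝 (s₀ - s₀)) :=
        (continuous_id.sub continuous_const).tendsto s₀
      rw [sub_self] at h2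
      exact h2.mono_left nhdsWithin_le_nhds
    · filter_upwards [self_mem_nhdsWithin] with s hs
      exact Set.mem_Ioi.2 (sub_pos.2 (Set.mem_Ioi.1 hs))
  have h3 : Tendsto (fun s : ℝ => ((s - s₀ : ℝ) : ℂ) ^ r * L B s) (𝓝[>] s₀) (𝓝 c) := by
    refine (h.comp h1).congr fun s => ?_
    simp only [Function.comp_apply, L]
    rw [show s₀ + (s - s₀) = s by ring]
  refine ⟨⟨c, hc, h3⟩, fun g hg hgL => ?_⟩
  have hid : MeromorphicAt (fun z : ℂ => (z - (s₀ : ℂ)) ^ r) (s₀ : ℂ) :=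
    (((MeromorphicAt.id _).sub (MeromorphicAt.const _ _))).pow r
  have h4 : meromorphicOrderAt (fun z : ℂ => (z - (s₀ : ℂ)) ^ r) (s₀ : ℂ) = ((r : ℤ) : WithTop ℤ) := by
    rw [meromorphicOrderAt_eq_int_iff hid]
    exact ⟨fun _ => 1, analyticAt_const, one_ne_zero, by simp⟩
  have h5 := order_zero (F := fun z : ℂ => (z - (s₀ : ℂ)) ^ r * g z) hc (by
    refine h3.congr' ?_
    filter_upwards [hgL] with s hs
    rw [hs]
    push_cast
    rfl)
  have h6 : meromorphicOrderAt (fun z : ℂ => (z - (s₀ : ℂ)) ^ r * g z) (s₀ : ℂ) =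
      meromorphicOrderAt (fun z : ℂ => (z - (s₀ : ℂ)) ^ r) (s₀ : ℂ) +
        meromorphicOrderAt g (s₀ : ℂ) := meromorphicOrderAt_mul hid hg
  rw [h5, h4] at h6
  revert h6
  generalize meromorphicOrderAt g (s₀ : ℂ) = m
  intro h6
  induction m using WithTop.recTopCoe with
  | top => simp at h6
  | coe m =>
    have h7 : (0 : ℤ) = (r : ℤ) + m := by exact_mod_cast h6
    have h8 : m = -(r : ℤ) := by omega
    rw [h8]
    rfl

section
variable {K E : Type} [Field K] [NumberField K] [Field E] [NumberField E]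

/-- at the good places `P v` is monic of degree `n` -/
theorem monic_deg {N n : ℕ} (hN : 2 ≤ N) {P : HeightOneSpectrum (𝓞 K) → (𝓞 E)[X]}
    (hP : Pool.Agent.H500.MW.PosUD (Pool.Agent.H500.TH.SolRes N n P))
    (v : HeightOneSpectrum (𝓞 K)) (hv : (N : 𝓞 K) ∉ v.asIdeal) :
    (P v).Monic ∧ (P v).natDegree = n := by
  obtain ⟨ℓ, hℓ, hℓv⟩ : ∃ ℓ : ℕ, Nat.Prime ℓ ∧ (ℓ : 𝓞 K) ∉ v.asIdeal := by
    by_cases h2 : ((2 : ℕ) : 𝓞 K) ∈ v.asIdeal
    · refine ⟨3, Nat.prime_three, fun h3 => v.isPrime.ne_top ((Ideal.eq_top_iff_one _).2 ?_)⟩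
      have h4 := v.asIdeal.sub_mem h3 h2
      have h5 : ((3 : ℕ) : 𝓞 K) - ((2 : ℕ) : 𝓞 K) = 1 := by norm_num
      rwa [h5] at h4
    · exact ⟨2, Nat.prime_two, h2⟩
  have : Fact ℓ.Prime := ⟨hℓ⟩
  let κ : E →+* PadicAlgCl ℓ := ((IsAlgClosed.lift : E →ₐ[ℚ] PadicAlgCl ℓ) : E →+* PadicAlgCl ℓ)
  obtain ⟨ρ, hρ⟩ := Pool.Agent.H500.ME.att_exists hN hP ℓ κ
  obtain ⟨σ, hσ⟩ := (Pool.Agent.W401.Frob.main K).1 v
  have h1 := hρ.frob v hv hℓv σ hσ
  have hinj : Function.Injective (κ.comp (algebraMap (𝓞 E) E)) :=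
    κ.injective.comp RingOfIntegers.coe_injective
  have h2 : ((P v).map (κ.comp (algebraMap (𝓞 E) E))).Monic := by
    rw [← h1]
    exact Matrix.charpoly_monic _
  refine ⟨Polynomial.monic_of_injective hinj h2, ?_⟩
  rw [← Polynomial.natDegree_map_eq_of_injective hinj (P v), ← h1, Matrix.charpoly_natDegree_eq_dim,
    Fintype.card_fin]

/-- the roots of `P v` at the good places -/
theorem exists_alpha {N n : ℕ} (hN : 2 ≤ N) {P : HeightOneSpectrum (𝓞 K) → (𝓞 E)[X]}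
    (hP : Pool.Agent.H500.MW.PosUD (Pool.Agent.H500.TH.SolRes N n P)) (τ : E →+* ℂ)
    (v : HeightOneSpectrum (𝓞 K)) : ∃ α : Fin n → ℂ, (N : 𝓞 K) ∉ v.asIdeal →
      (P v).map (τ.comp (algebraMap (𝓞 E) E)) = ∏ i, (X - C (α i)) := by
  by_cases hv : (N : 𝓞 K) ∈ v.asIdeal
  · exact ⟨fun _ => 0, fun h => absurd hv h⟩
  obtain ⟨h1, h2⟩ := monic_deg hN hP v hv
  have hinj : Function.Injective (τ.comp (algebraMap (𝓞 E) E)) :=
    τ.injective.comp RingOfIntegers.coe_injective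
  obtain ⟨y, hy⟩ := Pool.Agent.H500.MW.exists_roots
    ((P v).map (τ.comp (algebraMap (𝓞 E) E))) (h1.map _)
  have hdeg : ((P v).map (τ.comp (algebraMap (𝓞 E) E))).natDegree = n := by
    rw [Polynomial.natDegree_map_eq_of_injective hinj, h2]
  refine ⟨fun i => y (Fin.cast hdeg.symm i), fun _ => ?_⟩
  conv_lhs => rw [hy]
  exact Fintype.prod_equiv (finCongr hdeg) _ _ fun i => rfl

end

/-- **The pole at the edge.** -/
theorem result (K E : Type) [Field K] [NumberField K] [Field E] [NumberField E] (N n : ℕ)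
    (hN : 2 ≤ N) (P : HeightOneSpectrum (𝓞 K) → (𝓞 E)[X]) (w : ℤ) (τ : E →+* ℂ)
    (hw : ∀ v : HeightOneSpectrum (𝓞 K), (N : 𝓞 K) ∉ v.asIdeal →
      ∀ z ∈ ((P v).map (τ.comp (algebraMap (𝓞 E) E))).roots,
        ‖z‖ = (Ideal.absNorm v.asIdeal : ℝ) ^ ((w : ℝ) / 2))
    (h : ¬ Tendsto (dens (SolvableAt N n P)) atTop (𝓝 0)) :
    -- the `L`-function of the system itself
    (∃ r : ℕ, (Odd w → r = 0) ∧
      (∀ (ℓ : ℕ) [Fact ℓ.Prime] (κ : E →+* PadicAlgCl ℓ),
        (∃ ρ : GK K →* GL (Fin n) (PadicAlgCl ℓ), Att N n P ℓ κ ρ) ∧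
        (∃ χ : GK K →* (PadicAlgCl ℓ)ˣ, IsCyc ℓ χ) ∧
        ∀ ρ : GK K →* GL (Fin n) (PadicAlgCl ℓ), Att N n P ℓ κ ρ →
          ∀ χ : GK K →* (PadicAlgCl ℓ)ˣ, IsCyc ℓ χ → ∀ q : ℤ, w = 2 * q →
          Module.finrank (PadicAlgCl ℓ) (Eig ρ χ (-q)) = r) ∧
      ∀ B : HeightOneSpectrum (𝓞 K) → ℂ[X],
        (∀ v : HeightOneSpectrum (𝓞 K), (N : 𝓞 K) ∉ v.asIdeal →
          B v = ((P v).map (τ.comp (algebraMap (𝓞 E) E))).reverse) →
        (∀ v : HeightOneSpectrum (𝓞 K), (N : 𝓞 K) ∈ v.asIdeal →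
          (B v).eval (((Ideal.absNorm v.asIdeal : ℝ) ^ (-((w : ℝ) / 2 + 1)) : ℝ) : ℂ) ≠ 0) →
        HasPole B ((w : ℝ) / 2 + 1) r) ∧
    -- the `L`-functions of the subrepresentations of the tensor constructions
    ∀ (ℓ : ℕ) [Fact ℓ.Prime] (κ : E →+* PadicAlgCl ℓ) (ι : PadicAlgCl ℓ ≃+* ℂ)
      (ρ : GK K →* GL (Fin n) (PadicAlgCl ℓ)), Att N n P ℓ κ ρ →
      ∀ χ : GK K →* (PadicAlgCl ℓ)ˣ, IsCyc ℓ χ → ∀ (a b m : ℕ)
      (W : GK K →* GL (Fin m) (PadicAlgCl ℓ))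
      (T : Matrix ((Fin a → Fin n) × (Fin b → Fin n)) (Fin m) (PadicAlgCl ℓ)),
      Function.Injective T.mulVec →
      (∀ g, tens a b ρ g * T = T * (W g : Matrix (Fin m) (Fin m) (PadicAlgCl ℓ))) →
      ∀ B : HeightOneSpectrum (𝓞 K) → ℂ[X],
        (∀ᶠ v : HeightOneSpectrum (𝓞 K) in cofinite, ∀ σ, IsFrob v σ →
          B v = ((W σ⁻¹ : Matrix (Fin m) (Fin m) (PadicAlgCl ℓ)).charpolyRev).map
            (ι : PadicAlgCl ℓ →+* ℂ)) →
        (∀ v : HeightOneSpectrum (𝓞 K), (B v).eval (((Ideal.absNorm v.asIdeal : ℝ) ^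
          (-((((w * ((a : ℤ) - (b : ℤ)) : ℤ) : ℝ)) / 2 + 1)) : ℝ) : ℂ) ≠ 0) →
        (∀ q : ℤ, w * ((a : ℤ) - (b : ℤ)) = 2 * q →
          HasPole B ((((w * ((a : ℤ) - (b : ℤ)) : ℤ) : ℝ)) / 2 + 1)
            (Module.finrank (PadicAlgCl ℓ) (Eig W χ (-q)))) ∧
        (Odd (w * ((a : ℤ) - (b : ℤ))) →
          HasPole B ((((w * ((a : ℤ) - (b : ℤ)) : ℤ) : ℝ)) / 2 + 1) 0) := by
  have hP : Pool.Agent.H500.MW.PosUD (Pool.Agent.H500.TH.SolRes N n P) :=
    Pool.Agent.H500.MW.PosUD.mono (Pool.Agent.H500.MW.posUD_of_not h) fun _ hv => hv.solRes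
  refine ⟨?_, ?_⟩
  · choose α hα using exists_alpha hN hP τ
    have hwα : ∀ v : HeightOneSpectrum (𝓞 K), (N : 𝓞 K) ∉ v.asIdeal → ∀ i,
        ‖α v i‖ = (Ideal.absNorm v.asIdeal : ℝ) ^ ((w : ℝ) / 2) := by
      intro v hv i
      refine hw v hv _ ?_
      rw [hα v hv, mem_roots (monic_prod_of_monic _ _ fun k _ => monic_X_sub_C _).ne_zero, IsRoot,
        eval_prod]
      exact Finset.prod_eq_zero (Finset.mem_univ i) (by simp)
    obtain ⟨r, hr0, hr1, hr2⟩ := Pool.Agent.H500.ME.edge Pool.Agent.H500.ME.all_CYC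
      Pool.Agent.H500.ME.all_DUI Pool.Agent.H500.ME.all_PUR N n hN P hP τ α hα w hwα
    refine ⟨r, hr0, fun ℓ _ κ => hr1 ℓ κ, fun B hB hB0 => ?_⟩
    obtain ⟨c, hc, hlim⟩ := hr2 B (fun v hv => by
      rw [hB v hv, hα v hv, Pool.Agent.H500.ME.rev_split]) hB0
    exact hasPole_of hc hlim
  · intro ℓ _ κ ι ρ hρ χ hχ a b m W T hT hTW B hB hB0
    obtain ⟨r, hr1, hr2, c, hc, hlim⟩ := Pool.Agent.H500.ME.edge_W N n hN P hP w τ hw ℓ κ ι ρ hρ χ hχ
      a b m W T (fun x hx => hT (by rw [hx, Matrix.mulVec_zero])) hTW B hB hB0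
    refine ⟨fun q hq => ?_, fun hodd => ?_⟩
    · rw [← hr1 q hq]
      exact hasPole_of hc hlim
    · obtain rfl := hr2 hodd
      exact hasPole_of hc hlim

end Pool.Agent.Results.MP_1f4fc7_nt.SolvableResidualImages
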